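import Mathlib
import Pool.Agent.H.MP_a87542_al.F

namespace Pool.Agent.Results.MP_a87542_al.Yes

open Pool.Agent.H.MP_a87542_al

universe u

theorem result : ∃ (P : Type) (_ : Lattice P) (_ : Finite P) (n : P → ℕ)
    (μ : ∀ p q, p ≤ q → (Fin (n p) → ℕ) →+ (Fin (n q) → ℕ)),
    Funct (fun p q h => (μ p q h : (Fin (n p) → ℕ) → (Fin (n q) → ℕ))) ∧ LiftsReg μ ∧
      ¬ LiftsRR0.{u} μ := by
  obtain ⟨n, μ, h⟩ := main.{u}
  exact ⟨P, latP.toLattice, inferInstance, n, μ, h⟩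

end Pool.Agent.Results.MP_a87542_al.Yes
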